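import Pool.Agent.H73.PHT.Lim2

set_option autoImplicit false

namespace Pool.Agent.Results.MP_e1af46_an.BoundaryLimits

open Filter Topology

/-- Pseudoconvexity, in the form of the Kontinuitätssatz: if a map `φ`, holomorphic in a neighbourhood
of the closed bidisc, maps the Hartogs figure `{w = 0} ∪ {|z| = 1}` of the closed bidisc to `D`, it
maps the closed bidisc to `D`. -/
def Pseudoconvex {n : ℕ} (D : Set (Fin n → ℂ)) : Prop :=
  ∀ φ : ℂ × ℂ → (Fin n → ℂ),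
    (∃ δ > 0, DifferentiableOn ℂ φ {p | ‖p.1‖ < 1 + δ ∧ ‖p.2‖ < 1 + δ}) →
    (∀ z : ℂ, ‖z‖ ≤ 1 → φ (z, 0) ∈ D) → (∀ z w : ℂ, ‖z‖ = 1 → ‖w‖ ≤ 1 → φ (z, w) ∈ D) →
    ∀ z w : ℂ, ‖z‖ ≤ 1 → ‖w‖ ≤ 1 → φ (z, w) ∈ D

/-- `f` is a proper holomorphic map of `D` to itself. -/
def ProperSelfMap {n : ℕ} (D : Set (Fin n → ℂ)) (f : (Fin n → ℂ) → (Fin n → ℂ)) : Prop :=
  Set.MapsTo f D D ∧ DifferentiableOn ℂ f D ∧
    ∀ L : Set (Fin n → ℂ), L ⊆ D → IsCompact L → IsCompact (D ∩ f ⁻¹' L)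

/-- `f` has a holomorphic inverse `D → D`. -/
def Automorphism {n : ℕ} (D : Set (Fin n → ℂ)) (f : (Fin n → ℂ) → (Fin n → ℂ)) : Prop :=
  ∃ g : (Fin n → ℂ) → (Fin n → ℂ), Set.MapsTo g D D ∧ DifferentiableOn ℂ g D ∧
    (∀ z ∈ D, g (f z) = z) ∧ ∀ z ∈ D, f (g z) = z

/-- Let `D` be any bounded domain of `ℂⁿ`, `n ≥ 2`, which is not pseudoconvex, `f` a proper holomorphic
self-map of `D`, and `g` the limit on `D` of a subsequence of its iterates.  Then `f` is an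
automorphism, or `g` takes a value at a boundary point at which `D` is not locally pseudoconvex, or the
rank of the derivative of `g` is at least two somewhere and less than `n` everywhere on `D` (impossible
for `n = 2`). -/
theorem result (n : ℕ) (hn : 2 ≤ n) (D : Set (Fin n → ℂ)) (f g : (Fin n → ℂ) → (Fin n → ℂ))
    (k : ℕ → ℕ) (h1 : IsOpen D) (h2 : IsConnected D) (h3 : Bornology.IsBounded D)
    (h4 : ¬ Pseudoconvex D) (hf : ProperSelfMap D f) (hk : StrictMono k)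
    (ht : ∀ z ∈ D, Tendsto (fun j => f^[k j] z) atTop (𝓝 (g z))) :
    Automorphism D f ∨
      (∃ z ∈ D, g z ∈ frontier D ∧ ∀ U, IsOpen U → g z ∈ U → ¬ Pseudoconvex (D ∩ U)) ∨
      ((∃ z ∈ D, ¬ ∃ u, ∀ v, ∃ c : ℂ, fderiv ℂ g z v = c • u) ∧
        ∀ z ∈ D, (fderiv ℂ g z).det = 0) := by
  obtain ⟨hf1, hf2, hf3⟩ := hf
  by_cases hj : ∃ z ∈ D, Pool.PHS.jac g z ≠ 0
  · obtain ⟨z, hz, hz'⟩ := hj
    exact Or.inl (Pool.SMD.f_FU2 n D f g k z h1 h2 h3 ⟨hf1, hf2, hf3⟩ hk ht hz hz')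
  · right
    push Not at hj
    by_contra hno
    push Not at hno
    obtain ⟨hno1, hno2⟩ := hno
    have hr : ∀ z ∈ D, ∃ u, ∀ v, ∃ c : ℂ, fderiv ℂ g z v = c • u := by
      by_contra hr
      push Not at hr
      obtain ⟨z, hz, hz'⟩ := hr
      obtain ⟨y, hy, hy'⟩ := hno2 ⟨z, hz, hz'⟩
      exact hy' (hj y hy)
    refine h4 (Pool.PHT.asm2 h1 h3 ⟨hf1, hf2, hf3⟩ ht (fun z hz => ?_) (fun z hz => ?_))
    · obtain ⟨u, hu⟩ := hr z hz
      have h5 : LinearMap.range (fderiv ℂ g z).toLinearMap ≤ Submodule.span ℂ {u} := by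
        rintro _ ⟨v, rfl⟩
        obtain ⟨c, hc⟩ := hu v
        rw [Submodule.mem_span_singleton]
        exact ⟨c, hc.symm⟩
      exact (Submodule.finrank_mono h5).trans
        ((finrank_span_le_card ({u} : Set (Fin n → ℂ))).trans (by simp))
    · by_cases hgz : g z ∈ D
      · exact Or.inl hgz
      · right
        have h6 : g z ∈ frontier D := by
          rw [h1.frontier_eq]
          exact ⟨mem_closure_of_tendsto (ht z hz)
            (Eventually.of_forall fun j => (Set.MapsTo.iterate hf1 (k j)) hz), hgz⟩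
        obtain ⟨U, hU1, hU2, hU3⟩ := hno1 z hz h6
        exact ⟨U, hU1, hU2, hU3⟩

end Pool.Agent.Results.MP_e1af46_an.BoundaryLimits
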