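import Pool.Agent.H73.PHT.All

set_option autoImplicit false

namespace Pool.Agent.Results.MP_e1af46_an.DomainsWithHoles

/-- Every proper holomorphic self-map of `D ⊆ ℂⁿ` is biholomorphic. -/
def Rigid {n : ℕ} (D : Set (Fin n → ℂ)) : Prop :=
  ∀ f : (Fin n → ℂ) → (Fin n → ℂ),
    Set.MapsTo f D D → DifferentiableOn ℂ f D →
    (∀ L : Set (Fin n → ℂ), L ⊆ D → IsCompact L → IsCompact (D ∩ f ⁻¹' L)) →
    ∃ g : (Fin n → ℂ) → (Fin n → ℂ), Set.MapsTo g D D ∧ DifferentiableOn ℂ g D ∧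
      (∀ z ∈ D, g (f z) = z) ∧ ∀ z ∈ D, f (g z) = z

/-- Let `n ≥ 2`.  Every proper holomorphic self-map of a bounded domain `D` of `ℂⁿ` is biholomorphic if
the complement of `D` is the disjoint union of a closed connected set `E` and of a compact set `K`
which is a set of uniqueness for the holomorphic functions on `D ∪ K` (for instance, if `K` has
nonempty interior), in particular if `D` has a `C¹` boundary and its complement is not connected. -/
theorem result (n : ℕ) (hn : 2 ≤ n) :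
    (∀ D E K : Set (Fin n → ℂ), IsOpen D → IsConnected D → Bornology.IsBounded D →
      Dᶜ = E ∪ K → Disjoint E K → IsClosed E → IsPreconnected E → IsCompact K →
      (∀ u : (Fin n → ℂ) → ℂ, DifferentiableOn ℂ u (D ∪ K) → (∀ z ∈ K, u z = 0) →
        ∀ z ∈ D ∪ K, u z = 0) → Rigid D) ∧
    (∀ ρ : (Fin n → ℂ) → ℝ, ContDiff ℝ 1 ρ → (∀ z, ρ z = 0 → fderiv ℝ ρ z ≠ 0) →
      Bornology.IsBounded {z | ρ z < 0} → IsConnected {z | ρ z < 0} →
      ¬ IsPreconnected {z | 0 ≤ ρ z} → Rigid {z | ρ z < 0}) := by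
  refine ⟨?_, ?_⟩
  · intro D E K h1 h2 h3 h4 h5 h6 h7 h8 h9 f hf1 hf2 hf3
    have hK : K.Nonempty := by
      by_contra h
      rw [Set.not_nonempty_iff_eq_empty] at h
      obtain ⟨z, hz⟩ := h2.nonempty
      have h10 := h9 (fun _ => 1) (differentiableOn_const _)
        (fun y hy => absurd hy (by rw [h]; exact Set.notMem_empty y)) z (Or.inl hz)
      exact one_ne_zero h10
    exact Pool.PHT.f_uniq n hn D E K f ⟨h1, h2, h3, h6, h7, h8, hK, h5, h4⟩ h9 ⟨hf1, hf2, hf3⟩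
  · intro ρ h1 h2 h3 h4 h5
    obtain ⟨E, K, h⟩ := Pool.PHS.f_SMT n (by omega) ρ h1 h2 h3 h4 h5
    intro f hf1 hf2 hf3
    exact Pool.PHS.f_MAI n hn _ E K f h ⟨hf1, hf2, hf3⟩

end Pool.Agent.Results.MP_e1af46_an.DomainsWithHoles
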