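import Pool.Agent.H73.CBE.Final
import Pool.Agent.H81.CBF.XFR
import Pool.Agent.H73.CBF.Psc

set_option autoImplicit false

namespace Pool.Agent.Results.MP_e1af46_an.LowRegularity

/-- Pseudoconvexity, in the form of the Kontinuitätssatz: if a map `φ`, holomorphic in a neighbourhood
of the closed bidisc, maps the Hartogs figure `{w = 0} ∪ {|z| = 1}` of the closed bidisc to `D`, it
maps the closed bidisc to `D`. -/
def Pseudoconvex {n : ℕ} (D : Set (Fin n → ℂ)) : Prop :=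
  ∀ φ : ℂ × ℂ → (Fin n → ℂ),
    (∃ δ > 0, DifferentiableOn ℂ φ {p | ‖p.1‖ < 1 + δ ∧ ‖p.2‖ < 1 + δ}) →
    (∀ z : ℂ, ‖z‖ ≤ 1 → φ (z, 0) ∈ D) → (∀ z w : ℂ, ‖z‖ = 1 → ‖w‖ ≤ 1 → φ (z, w) ∈ D) →
    ∀ z w : ℂ, ‖z‖ ≤ 1 → ‖w‖ ≤ 1 → φ (z, w) ∈ D

/-- Let `n ≥ 2` and `0 < a < 1`.  There are a bounded connected complete circular pseudoconvex domain
`{ρ < 0}` of `ℂⁿ`, `ρ` of class `C¹` with locally `a`-Hölder continuous derivative and `dρ ≠ 0` where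
`ρ = 0`, and a homogeneous polynomial map of degree `d ≥ 2` which is a proper non-injective self-map
of it. -/
theorem result (n : ℕ) (hn : 2 ≤ n) (a : ℝ) (ha0 : 0 < a) (ha1 : a < 1) :
    ∃ (ρ : (Fin n → ℂ) → ℝ) (f : (Fin n → ℂ) → (Fin n → ℂ)),
      -- the boundary is of class `C^{1,a}`
      ContDiff ℝ 1 ρ ∧
      (∀ R : ℝ, ∃ L : ℝ, ∀ z w : Fin n → ℂ, ‖z‖ ≤ R → ‖w‖ ≤ R →
        ‖fderiv ℝ ρ z - fderiv ℝ ρ w‖ ≤ L * ‖z - w‖ ^ a) ∧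
      (∀ z, ρ z = 0 → fderiv ℝ ρ z ≠ 0) ∧
      -- the domain is bounded, connected, complete circular and pseudoconvex
      Bornology.IsBounded {z | ρ z < 0} ∧ IsConnected {z | ρ z < 0} ∧
      (∀ (c : ℂ) (z : Fin n → ℂ), ‖c‖ ≤ 1 → ρ z < 0 → ρ (c • z) < 0) ∧
      Pseudoconvex {z | ρ z < 0} ∧
      -- `f` is a homogeneous polynomial map
      (∃ (d : ℕ) (p : Fin n → MvPolynomial (Fin n) ℂ), 2 ≤ d ∧ (∀ i, (p i).IsHomogeneous d) ∧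
        ∀ z i, f z i = MvPolynomial.eval z (p i)) ∧
      -- `f` is a proper holomorphic self-map of the domain, and not injective
      Differentiable ℂ f ∧ Set.MapsTo f {z | ρ z < 0} {z | ρ z < 0} ∧
      (∀ L : Set (Fin n → ℂ), L ⊆ {z | ρ z < 0} → IsCompact L →
        IsCompact ({z | ρ z < 0} ∩ f ⁻¹' L)) ∧
      ¬ Set.InjOn f {z | ρ z < 0} := by
  obtain ⟨ρ, f, h1, h2, h3, h4, h5, h6, ⟨d, p, hd, hp, hf⟩, h7, h8, h9, h10⟩ :=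
    Pool.CBF.XFR_thm Pool.CBE.f_THM Pool.CBE.f_FDR n a hn ha0 ha1
  exact ⟨ρ, f, h1, h2, h3, h4, h5, h6,
    Pool.CBF.psc_low hd h1.continuous h6 h4 h5 hp hf h7 h8 h9, ⟨d, p, hd, hp, hf⟩, h7, h8, h9, h10⟩

end Pool.Agent.Results.MP_e1af46_an.LowRegularity
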