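import Pool.Agent.H73.SMD.Final

set_option autoImplicit false

namespace Pool.Agent.Results.MP_e1af46_an.RecurrentMaps

open Filter Topology

/-- Pseudoconvexity, in the form of the Kontinuitätssatz: if a map `φ`, holomorphic in a neighbourhood
of the closed bidisc, maps the Hartogs figure `{w = 0} ∪ {|z| = 1}` of the closed bidisc to `D`, it
maps the closed bidisc to `D`. -/
def Pseudoconvex (D : Set (Fin 2 → ℂ)) : Prop :=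
  ∀ φ : ℂ × ℂ → (Fin 2 → ℂ),
    (∃ δ > 0, DifferentiableOn ℂ φ {p | ‖p.1‖ < 1 + δ ∧ ‖p.2‖ < 1 + δ}) →
    (∀ z : ℂ, ‖z‖ ≤ 1 → φ (z, 0) ∈ D) → (∀ z w : ℂ, ‖z‖ = 1 → ‖w‖ ≤ 1 → φ (z, w) ∈ D) →
    ∀ z w : ℂ, ‖z‖ ≤ 1 → ‖w‖ ≤ 1 → φ (z, w) ∈ D

/-- `f` is a proper holomorphic map of `D` to itself. -/
def ProperSelfMap (D : Set (Fin 2 → ℂ)) (f : (Fin 2 → ℂ) → (Fin 2 → ℂ)) : Prop :=
  Set.MapsTo f D D ∧ DifferentiableOn ℂ f D ∧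
    ∀ L : Set (Fin 2 → ℂ), L ⊆ D → IsCompact L → IsCompact (D ∩ f ⁻¹' L)

/-- `f` has a holomorphic inverse `D → D`. -/
def Automorphism (D : Set (Fin 2 → ℂ)) (f : (Fin 2 → ℂ) → (Fin 2 → ℂ)) : Prop :=
  ∃ g : (Fin 2 → ℂ) → (Fin 2 → ℂ), Set.MapsTo g D D ∧ DifferentiableOn ℂ g D ∧
    (∀ z ∈ D, g (f z) = z) ∧ ∀ z ∈ D, f (g z) = z

/-- Let `D` be a bounded domain of `ℂ²` with `C¹` boundary which is not pseudoconvex.  A proper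
holomorphic self-map of `D` which is not compactly divergent (for instance, one with a fixed point in
`D`) is an automorphism. -/
theorem result (ρ : (Fin 2 → ℂ) → ℝ) (f : (Fin 2 → ℂ) → (Fin 2 → ℂ)) (h1 : ContDiff ℝ 1 ρ)
    (h2 : ∀ z, ρ z = 0 → fderiv ℝ ρ z ≠ 0) (h3 : Bornology.IsBounded {z | ρ z < 0})
    (h4 : IsConnected {z | ρ z < 0}) (h5 : ¬ Pseudoconvex {z | ρ z < 0})
    (hf : ProperSelfMap {z | ρ z < 0} f)
    (h6 : ∃ (z w : Fin 2 → ℂ) (k : ℕ → ℕ), ρ z < 0 ∧ ρ w < 0 ∧ StrictMono k ∧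
      Tendsto (fun j => f^[k j] z) atTop (𝓝 w)) : Automorphism {z | ρ z < 0} f := by
  obtain ⟨hf1, hf2, hf3⟩ := hf
  obtain ⟨z, w, k, hz, hw, hk, ht⟩ := h6
  rcases Pool.SMD.f_MAI ρ f k z w ⟨h1, h2, h3, h4⟩ ⟨hf1, hf2, hf3⟩ hk hz hw ht with h | h
  · exact h
  · exact absurd h h5

end Pool.Agent.Results.MP_e1af46_an.RecurrentMaps
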